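import Pool.Agent.H53R2.RS
import Pool.Agent.H53R2.RForb
import Pool.Agent.H53R2.RMalcev
import Pool.Agent.H53R2.SFinal
import Pool.Agent.H53R2.RMaxN
import Pool.Agent.H53R2.CFinal

set_option autoImplicit false

namespace Pool.Agent.Results.MP_364ede_al.ForbiddenGroups

open scoped commutatorElement

/-! ### Varieties -/

/-- `G` belongs to the variety of groups defined by the laws `w = 1`, `w ∈ W`. -/
def InVariety (W : Set (FreeGroup ℕ)) (G : Type) [Group G] : Prop :=
  ∀ w ∈ W, ∀ f : ℕ → G, FreeGroup.lift f w = 1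

/-- the variety defined by `W` is soluble: the derived lengths of its groups are bounded. -/
def SolubleVariety (W : Set (FreeGroup ℕ)) : Prop :=
  ∃ d : ℕ, ∀ (G : Type) [Group G], InVariety W G → derivedSeries G d = ⊥

/-- `G` is residually finite. -/
def ResiduallyFinite (G : Type) [Group G] : Prop :=
  ∀ g : G, g ≠ 1 → ∃ N : Subgroup G, N.Normal ∧ N.FiniteIndex ∧ g ∉ N

/-- `G` is Hopfian: every surjective endomorphism is injective. -/
def Hopfian (G : Type) [Group G] : Prop :=
  ∀ φ : G →* G, Function.Surjective φ → Function.Injective φ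

/-- the maximal condition on normal subgroups: every normal subgroup of `G` is the
normal closure of a finite set. -/
def MaxNormal (G : Type) [Group G] : Prop :=
  ∀ N : Subgroup G, N.Normal → ∃ S : Finset G, N = Subgroup.normalClosure (S : Set G)

/-- every family of pairwise non-isomorphic finitely generated groups in the variety has fewer than
`2^ℵ₀` members. -/
def SmallVariety (W : Set (FreeGroup ℕ)) : Prop :=
  ∀ (ι : Type) (G : ι → Type) [∀ i, Group (G i)], (∀ i, Group.FG (G i)) →
    (∀ i, InVariety W (G i)) → (∀ i j, Nonempty (G i ≃* G j) → i = j) →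
    Cardinal.mk ι < Cardinal.continuum

/-- every family of pairwise non-isomorphic finitely generated groups in the variety is countable. -/
def CountableVariety (W : Set (FreeGroup ℕ)) : Prop :=
  ∀ (ι : Type) (G : ι → Type) [∀ i, Group (G i)], (∀ i, Group.FG (G i)) →
    (∀ i, InVariety W (G i)) → (∀ i j, Nonempty (G i ≃* G j) → i = j) → Countable ι

/-! ### The law and the forbidden configuration -/

/-- some law of the form
`[x,y] = ∏_{k < n} w_k(x,y,z) [x, z^{i_k} y z^{-i_k}]^{e_k} w_k(x,y,z)⁻¹`
with all exponents `i_k ≠ 0` holds in the variety. -/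
def ShiftLaw (W : Set (FreeGroup ℕ)) : Prop :=
  ∃ (n : ℕ) (w : Fin n → FreeGroup (Fin 3)) (i e : Fin n → ℤ), (∀ k, i k ≠ 0) ∧
    ∀ (G : Type) [Group G], InVariety W G → ∀ x y z : G,
      ⁅x, y⁆ = (List.ofFn fun k : Fin n =>
        FreeGroup.lift ![x, y, z] (w k) * ⁅x, z ^ i k * y * z ^ (-(i k))⁆ ^ e k *
          (FreeGroup.lift ![x, y, z] (w k))⁻¹).prod

/-- no group of the variety contains elements `x, y, z` such that `x` commutes with all the
conjugates `z^i y z^{-i}`, `i ≠ 0`, but not with `y`. -/
def NoIsolatedCommutator (W : Set (FreeGroup ℕ)) : Prop :=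
  ∀ (G : Type) [Group G], InVariety W G → ∀ x y z : G,
    (∀ i : ℤ, i ≠ 0 → ⁅x, z ^ i * y * z ^ (-i)⁆ = 1) → ⁅x, y⁆ = 1

/-! ### Central wreath products with the infinite cyclic group -/

section Wreath

variable (K : Type) [Group K]

/-- Mathlib's (unrestricted) wreath product of `K` with the infinite cyclic group. -/
abbrev Wreath : Type := RegularWreathProduct K (Multiplicative ℤ)

/-- the copy of `K` in the coordinate `0`. -/
def coord : K →* Wreath K where
  toFun k := ⟨Pi.mulSingle 1 k, 1⟩
  map_one' := by
    ext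
    · simp
    · rfl
  map_mul' a b := by
    ext i
    · simp [Pi.mulSingle_mul]
    · rfl

/-- the shift, a generator of the infinite cyclic group on top. -/
def shift : Wreath K := RegularWreathProduct.inl (Multiplicative.ofAdd 1)

/-- the restricted wreath product `K ≀ ℤ`: the subgroup generated by the copy of `K` in the
coordinate `0` and the shift. -/
def RestrictedWreath : Subgroup (Wreath K) :=
  Subgroup.closure (Set.range (coord K) ∪ {shift K})

/-- the normal subgroup of `K ≀ ℤ` generated by the commutators `[z, shift]`, `z` in the centre of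
the copy of `K` in the coordinate `0`. -/
def centralRelations : Subgroup ↥(RestrictedWreath K) :=
  Subgroup.normalClosure {x | ∃ z ∈ Subgroup.center K, (x : Wreath K) = ⁅coord K z, shift K⁆}

instance : (centralRelations K).Normal := Subgroup.normalClosure_normal

/-- the central wreath product of `K` with `ℤ`: the quotient of the restricted wreath product
`K ≀ ℤ` in which the centres of all the copies of `K` are identified (`K ≀ ℤ` itself if `K` has
trivial centre). -/
abbrev CentralWreath : Type := ↥(RestrictedWreath K) ⧸ centralRelations K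

/-- `K` is a finite non-abelian group all of whose proper subgroups and all of whose proper
quotients are abelian. -/
structure MinimalNonabelian : Prop where
  finite : Finite K
  nonabelian : ∃ a b : K, a * b ≠ b * a
  subgroups : ∀ H : Subgroup K, H ≠ ⊤ → ∀ a b : ↥H, a * b = b * a
  quotients : ∀ (R : Subgroup K) [R.Normal], R ≠ ⊥ → ∀ a b : K ⧸ R, a * b = b * a

end Wreath

/-- Determination of the soluble varieties all of whose finitely generated groups are residually
finite. -/
theorem result (W : Set (FreeGroup ℕ)) (hsol : SolubleVariety W) :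
    List.TFAE [
      ∀ (G : Type) [Group G], Group.FG G → InVariety W G → ResiduallyFinite G,
      ∀ (K : Type) [Group K], MinimalNonabelian K → ¬ InVariety W (CentralWreath K),
      ∀ (K : Type) [Group K], (∃ a b : K, a * b ≠ b * a) → ¬ InVariety W (CentralWreath K),
      ShiftLaw W,
      NoIsolatedCommutator W,
      ∀ (G : Type) [Group G], Group.FG G → InVariety W G → MaxNormal G,
      ∀ (G : Type) [Group G], Group.FG G → InVariety W G → Hopfian G,
      SmallVariety W,
      CountableVariety W] := by
  obtain ⟨d, hd⟩ := hsol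
  have hUI : ShiftLaw W ↔ ∃ u : H53R2.UI, ∀ (G : Type) [Group G], H53R2.InVar W G → u.Grp G := by
    constructor
    · rintro ⟨n, w, i, e, hi, h⟩
      exact ⟨⟨n, w, i, e, hi⟩, fun G _ hG b m t => h G hG b m t⟩
    · rintro ⟨u, hu⟩
      exact ⟨u.n, u.w, u.i, u.e, u.hi, fun G _ hG x y z => hu G hG x y z⟩
  tfae_have 1 → 7 := by
    intro h G _ hfg hG φ hφ
    exact H53R2.P_malcev (h G hfg hG) φ hφ
  tfae_have 7 → 4 := by
    intro h
    rw [hUI]
    apply H53R2.exists_UI
    intro N hN φ hφ
    exact h _ (QuotientGroup.fg _) ((H53R2.RF_inVar W 3).quot N) φ hφ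
  tfae_have 4 → 5 := by
    rintro ⟨n, w, i, e, hi, h⟩ G _ hG x y z hxyz
    rw [h G hG x y z]
    apply List.prod_eq_one
    intro g hg
    rw [List.mem_ofFn] at hg
    obtain ⟨k, rfl⟩ := hg
    rw [hxyz _ (hi k), one_zpow, mul_one, mul_inv_cancel]
  tfae_have 5 → 4 := by
    intro h
    rw [hUI]
    exact H53R2.U_forbidden W h
  tfae_have 4 → 1 := by
    rw [hUI]
    rintro ⟨u, hu⟩ G _ hfg hG
    obtain ⟨h1, h2⟩ := H53R2.U_main u d G (hu G hG) (hd G hG)
    exact H53R2.S_RF u h2 h1 (hu G hG)
  tfae_have 4 → 6 := by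
    rw [hUI]
    rintro ⟨u, hu⟩ G _ hfg hG N hN
    exact (H53R2.U_main u d G (hu G hG) (hd G hG)).2.normalClosure N hN
  tfae_have 6 → 9 := by
    intro h ι G _ hfg hG hne
    refine H53R2.countable_of_maxN W (fun n => ?_) ι G hfg hG hne
    exact H53R2.maxN_of_normalClosure (fun N hN => h _ (QuotientGroup.fg _)
      (H53R2.RF_inVar W n) N hN)
  tfae_have 9 → 8 := by
    intro h ι G _ hfg hG hne
    have := h ι G hfg hG hne
    exact lt_of_le_of_lt (Cardinal.mk_le_aleph0_iff.2 this) Cardinal.aleph0_lt_continuum
  tfae_have 8 → 4 := by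
    intro h
    rw [hUI]
    exact H53R2.exists_UI_small h
  tfae_have 5 → 3 := by
    rintro h K _ ⟨a, b, hab⟩ hW
    exact H53R2.not_CW h K ⟨a, b, fun h => hab (commutatorElement_eq_one_iff_mul_comm.1 h)⟩ hW
  tfae_have 3 → 2 := fun h K _ hK => h K hK.nonabelian
  tfae_have 2 → 5 := by
    intro h G _ hG x y z hxyz
    by_contra hxy
    obtain ⟨K, hK, hmin, hW⟩ := H53R2.exists_CW d hd G hG x y z hxyz hxy
    refine h K ⟨hmin.fin, ?_, ?_, ?_⟩ hW
    · obtain ⟨a, b, hab⟩ := hmin.nonab
      exact ⟨a, b, fun h => hab (commutatorElement_eq_one_iff_mul_comm.2 h)⟩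
    · intro H hH a b
      exact Subtype.ext (commutatorElement_eq_one_iff_mul_comm.1 (hmin.sub H hH a a.2 b b.2))
    · intro R _ hR a b
      obtain ⟨a, rfl⟩ := QuotientGroup.mk'_surjective R a
      obtain ⟨b, rfl⟩ := QuotientGroup.mk'_surjective R b
      rw [← commutatorElement_eq_one_iff_mul_comm, ← map_commutatorElement]
      exact (QuotientGroup.eq_one_iff _).2 (hmin.quot R hR a b)
  tfae_finish

end Pool.Agent.Results.MP_364ede_al.ForbiddenGroups
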